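import Pool.Agent.Helper71.HN.SheetE

/-!
Row NPTE of project HE: `δ x / y` near infinity, even degree.
-/

set_option autoImplicit false

namespace Pool.Agent.Helper89.HE

open Pool.Agent.Helper71.HN Pool.Agent.Helper71.HE

theorem NPTE : ST_NPTE := by
  intro N _ v s δ g lam a b R e hv hδ hbd hlam he hR ha hb
  have hd1 : v (R ^ (g + 1)) = Real.exp ((g + 1) * lam) := by
    rw [map_pow, hR, ← Real.exp_nat_mul]
    push_cast
    rfl
  have hee : e * e = 1 := by
    rcases he with rfl | rfl <;> ring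
  have hve : v e = 1 := by
    rcases he with rfl | rfl
    · exact map_one v
    · rw [v.map_neg, map_one]
  have hR0 : R ≠ 0 := by
    intro h
    rw [h, map_zero] at hR
    exact (Real.exp_pos lam).ne hR
  have hRd : R ^ (g + 1) ≠ 0 := pow_ne_zero _ hR0
  have hvb : Real.exp ((g + 1) * lam) ≤ v b := by
    have e1 : e * R ^ (g + 1) = b + -(b - e * R ^ (g + 1)) := by ring
    have h := hv.1 b (-(b - e * R ^ (g + 1)))
    rw [← e1, v.map_neg, map_mul, hve, one_mul, hd1] at h
    rcases le_max_iff.mp h with h1 | h1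
    · exact h1
    · exact absurd (lt_of_le_of_lt h1 hb) (lt_irrefl _)
  have hb0 : b ≠ 0 := by
    intro h
    rw [h, map_zero] at hvb
    exact absurd hvb (not_le.mpr (Real.exp_pos _))
  have ed : δ a = δ R + δ (a - R) := by
    have e2 : a = R + (a - R) := by ring
    calc δ a = δ (R + (a - R)) := by rw [← e2]
      _ = δ R + δ (a - R) := by rw [hδ.1]
  have e3 : δ a / b - e * δ R / R ^ (g + 1)
      = (δ (a - R) * R ^ (g + 1) + -(δ R * (e * (b - e * R ^ (g + 1)))))
        / (b * R ^ (g + 1)) := by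
    rw [div_sub_div _ _ hb0 hRd, ed]
    congr 1
    have e4 : e * (b - e * R ^ (g + 1)) = e * b - R ^ (g + 1) := by
      rw [mul_sub, ← mul_assoc, hee, one_mul]
    rw [e4]
    ring
  have k1 : v (δ (a - R) * R ^ (g + 1)) < Real.exp lam * Real.exp ((g + 1) * lam) := by
    rw [map_mul, hd1]
    exact mul_lt_mul_of_pos_right (lt_of_le_of_lt (hbd.1 _) ha) (Real.exp_pos _)
  have k2 : v (-(δ R * (e * (b - e * R ^ (g + 1))))) <
      Real.exp lam * Real.exp ((g + 1) * lam) := by
    rw [v.map_neg, map_mul, map_mul, hve, one_mul]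
    calc v (δ R) * v (b - e * R ^ (g + 1)) ≤ Real.exp lam * v (b - e * R ^ (g + 1)) :=
          mul_le_mul_of_nonneg_right (le_trans (hbd.1 R) hR.le) (v.nonneg _)
      _ < Real.exp lam * Real.exp ((g + 1) * lam) := mul_lt_mul_of_pos_left hb (Real.exp_pos _)
  have k3 : v (δ (a - R) * R ^ (g + 1) + -(δ R * (e * (b - e * R ^ (g + 1)))))
      < Real.exp lam * Real.exp ((g + 1) * lam) := lt_of_le_of_lt (hv.1 _ _) (max_lt k1 k2)
  rw [e3, map_div₀, map_mul, hd1, div_lt_iff₀ (mul_pos (v.pos hb0) (Real.exp_pos _))]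
  refine lt_of_lt_of_le k3 ?_
  have e5 : Real.exp lam = Real.exp (-(g * lam)) * Real.exp ((g + 1) * lam) := by
    rw [← Real.exp_add]
    congr 1
    ring
  calc Real.exp lam * Real.exp ((g + 1) * lam)
      = Real.exp (-(g * lam)) * (Real.exp ((g + 1) * lam) * Real.exp ((g + 1) * lam)) := by
        rw [← mul_assoc, ← e5]
    _ ≤ Real.exp (-(g * lam)) * (v b * Real.exp ((g + 1) * lam)) :=
        mul_le_mul_of_nonneg_left
          (mul_le_mul_of_nonneg_right hvb (Real.exp_pos _).le) (Real.exp_pos _).le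

end Pool.Agent.Helper89.HE
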