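import Pool.Agent.Helper71.HN.SheetE
import Pool.Agent.Helper17.HN.WPT

/-!
Row WPTE of project HE: `δ x / y` is integral at every point of the curve, even degree.
-/

set_option autoImplicit false

namespace Pool.Agent.Helper89.HE

open Polynomial Finset Pool.Agent.Helper71.HN Pool.Agent.Helper71.HE Pool.Agent.Helper17.HN

theorem WPTE : ST_WPTE := by
  intro F N _ _ τ v s δ g f a b hv hδ hbd hc h0 hg hfm hfd hfs hb hb0
  have hvb : 0 < v b := v.pos hb0
  have h2 : v (2 : N) ≤ 1 := by
    have h := hv.2 2 (by norm_num)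
    have e : (((2 : ℚ)) : N) = 2 := by norm_num
    rw [e] at h
    exact h.le
  rcases le_or_gt (v a) 1 with ha | ha
  · obtain ⟨A, B, hAB⟩ := hfs
    have hfa : v ((f.map τ).eval a) ≤ 1 := vev1 hv hc f a ha
    have hvb1 : v b ≤ 1 := by
      by_contra hlt
      rw [not_le] at hlt
      have h3 : 1 < v b ^ 2 := one_lt_pow₀ hlt (by norm_num)
      rw [← map_pow, hb] at h3
      exact absurd hfa (not_le.mpr h3)
    have e1 : (A.map τ).eval a * b ^ 2 + (B.map τ).eval a * ((derivative f).map τ).eval a = 1 := by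
      have h := congrArg (fun q => (q.map τ).eval a) hAB
      simp only [Polynomial.map_add, Polynomial.map_mul, eval_add, eval_mul, Polynomial.map_one,
        eval_one] at h
      rw [hb]
      exact h
    have e2 : ((derivative f).map τ).eval a * δ a = 2 * b * δ b := by
      rw [← dvev hδ h0 f a, ← hb, sq, hδ.2]
      ring
    have e3 : δ a / b = (A.map τ).eval a * b * δ a + 2 * (B.map τ).eval a * δ b := by
      rw [div_eq_iff hb0]
      calc δ a = ((A.map τ).eval a * b ^ 2
            + (B.map τ).eval a * ((derivative f).map τ).eval a) * δ a := by rw [e1, one_mul]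
        _ = (A.map τ).eval a * b ^ 2 * δ a
            + (B.map τ).eval a * (((derivative f).map τ).eval a * δ a) := by ring
        _ = ((A.map τ).eval a * b * δ a + 2 * (B.map τ).eval a * δ b) * b := by rw [e2]; ring
    have hA : v ((A.map τ).eval a) ≤ 1 := vev1 hv hc A a ha
    have hB : v ((B.map τ).eval a) ≤ 1 := vev1 hv hc B a ha
    have k1 : v ((A.map τ).eval a * b * δ a) ≤ v (δ a) := by
      rw [map_mul, map_mul]
      calc v ((A.map τ).eval a) * v b * v (δ a) ≤ 1 * v (δ a) :=
            mul_le_mul_of_nonneg_right (mul_le_one₀ hA (v.nonneg b) hvb1) (v.nonneg _)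
        _ = v (δ a) := one_mul _
    have k2 : v (2 * (B.map τ).eval a * δ b) ≤ v (δ b) := by
      rw [map_mul, map_mul]
      calc v (2 : N) * v ((B.map τ).eval a) * v (δ b) ≤ 1 * v (δ b) :=
            mul_le_mul_of_nonneg_right (mul_le_one₀ h2 (v.nonneg _) hB) (v.nonneg _)
        _ = v (δ b) := one_mul _
    rw [e3]
    refine ⟨?_, fun hs => ?_⟩
    · exact le_trans (hv.1 _ _) (max_le (le_trans k1 (le_trans (hbd.1 a) ha))
        (le_trans k2 (le_trans (hbd.1 b) hvb1)))
    · exact lt_of_le_of_lt (hv.1 _ _) (max_lt (lt_of_le_of_lt k1 (hbd.2 hs a ha))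
        (lt_of_le_of_lt k2 (hbd.2 hs b hvb1)))
  · have key : v (δ a / b) < 1 := by
      have hr : v ((f.eraseLead.map τ).eval a) ≤ v a ^ (2 * g + 1) := by
        refine vev2 hv hc _ a (2 * g + 1) ?_ ha.le
        have h := eraseLead_natDegree_le f
        rw [hfd] at h
        simpa using h
      have hlt : v a ^ (2 * g + 1) < v a ^ (2 * g + 2) :=
        pow_lt_pow_right₀ ha (Nat.lt_succ_self _)
      have ef : (f.map τ).eval a = a ^ (2 * g + 2) + (f.eraseLead.map τ).eval a := by
        conv_lhs => rw [← eraseLead_add_C_mul_X_pow f]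
        rw [hfm.leadingCoeff, hfd]
        simp only [Polynomial.map_add, eval_add, Polynomial.map_pow, map_X, eval_pow, eval_X,
          map_one, one_mul]
        ring
      have h3 : v a ^ (2 * g + 2) ≤ v b ^ 2 := by
        have e4 : a ^ (2 * g + 2) = (f.map τ).eval a + -((f.eraseLead.map τ).eval a) := by
          rw [ef]; ring
        have h4 := hv.1 ((f.map τ).eval a) (-((f.eraseLead.map τ).eval a))
        rw [← e4, v.map_neg, map_pow, ← hb, map_pow] at h4
        rcases le_max_iff.mp h4 with h5 | h5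
        · exact h5
        · exact absurd (lt_of_le_of_lt (le_trans h5 hr) hlt) (lt_irrefl _)
      have h6 : v a ^ 2 < v b ^ 2 :=
        lt_of_lt_of_le (pow_lt_pow_right₀ ha (by omega)) h3
      have h7 : v a < v b := lt_of_pow_lt_pow_left₀ 2 (v.nonneg b) h6
      rw [map_div₀, div_lt_one hvb]
      exact lt_of_le_of_lt (hbd.1 a) h7
    exact ⟨key.le, fun _ => key⟩

end Pool.Agent.Helper89.HE
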